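import Mathlib
import Pool.Agent.H262.FK5

/-!
# A `p`-Banach space with the Schur `p`-property whose Banach envelope fails the Schur property

The space is `F_p([0, 1])`.  Its Schur `p`-property is in `Pool.Agent.H262.FK5`.
-/

namespace Pool.Agent.Results.MP_4b0054_an.EnvelopeNotSchur

open Pool.Agent.H262.FreeP Filter Topology Finset

/-- The Schur property of a Banach space: weakly null sequences are norm null. -/
def Schur (𝕜 : Type) [RCLike 𝕜] (Y : Type) [NormedAddCommGroup Y] [NormedSpace 𝕜 Y] : Prop :=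
  ∀ y : ℕ → Y, (∀ φ : Y →L[𝕜] 𝕜, Tendsto (fun n => φ (y n)) atTop (𝓝 0)) → Tendsto y atTop (𝓝 0)

/-- `(Y, J)` is the Banach envelope of `(X, N)`: `Y` is a Banach space, `J` is a linear contraction,
and every linear contraction `T` from `X` to a Banach space `Z` factors through `J` by a unique
linear contraction `Y → Z`. -/
structure IsBanachEnvelope (𝕜 : Type) [RCLike 𝕜] (X : Type) [AddCommGroup X] [Module 𝕜 X]
    (N : X → ℝ) (Y : Type) [NormedAddCommGroup Y] [NormedSpace 𝕜 Y] (J : X →ₗ[𝕜] Y) : Prop where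
  complete : CompleteSpace Y
  contraction : ∀ x, ‖J x‖ ≤ N x
  universal : ∀ (Z : Type) [NormedAddCommGroup Z] [NormedSpace 𝕜 Z] [CompleteSpace Z]
    (T : X →ₗ[𝕜] Z), (∀ x, ‖T x‖ ≤ N x) →
      ∃! T' : Y →L[𝕜] Z, ‖T'‖ ≤ 1 ∧ ∀ x, T' (J x) = T x

variable {𝕜 : Type} [RCLike 𝕜]

/-! ### Existence of the envelope -/

section envelope

variable {X : Type} [AddCommGroup X] [Module 𝕜 X] {N : X → ℝ}

/-- the contractive functionals -/
def Fun (𝕜 : Type) [RCLike 𝕜] {X : Type} [AddCommGroup X] [Module 𝕜 X] (N : X → ℝ) : Type :=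
  {φ : X →ₗ[𝕜] 𝕜 // ∀ y, ‖φ y‖ ≤ N y}

theorem memlp (N : X → ℝ) (x : X) : Memℓp (fun φ : Fun 𝕜 N => φ.1 x) ⊤ :=
  memℓp_infty ⟨N x, by rintro _ ⟨φ, rfl⟩; exact φ.2 x⟩

/-- the evaluation map to `ℓ_∞` -/
def J0 (N : X → ℝ) : X →ₗ[𝕜] lp (fun _ : Fun 𝕜 N => 𝕜) ⊤ where
  toFun x := ⟨fun φ => φ.1 x, memlp N x⟩
  map_add' x y := by
    ext φ
    exact map_add φ.1 x y
  map_smul' t x := by
    ext φ
    exact map_smul φ.1 t x

theorem J0_apply (x : X) (φ : Fun 𝕜 N) : (J0 (𝕜 := 𝕜) N x : ∀ _ : Fun 𝕜 N, 𝕜) φ = φ.1 x := rfl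

theorem norm_J0_le (hN : ∀ x, 0 ≤ N x) (x : X) : ‖J0 (𝕜 := 𝕜) N x‖ ≤ N x :=
  lp.norm_le_of_forall_le (hN x) fun φ => φ.2 x

/-- Banach envelopes exist -/
theorem exists_envelope (hN : ∀ x, 0 ≤ N x) :
    ∃ (Y : Type) (_ : NormedAddCommGroup Y) (_ : NormedSpace 𝕜 Y) (J : X →ₗ[𝕜] Y),
      IsBanachEnvelope 𝕜 X N Y J := by
  let R := LinearMap.range (J0 (𝕜 := 𝕜) N)
  let J : X →ₗ[𝕜] R.topologicalClosure :=
    (J0 N).codRestrict R.topologicalClosure fun x => R.le_topologicalClosure ⟨x, rfl⟩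
  have hJ : ∀ x, ‖J x‖ = ‖J0 (𝕜 := 𝕜) N x‖ := fun x => rfl
  have hdense : DenseRange J := by
    intro y
    rw [Metric.mem_closure_iff]
    intro ε hε
    have hy : (y : lp (fun _ : Fun 𝕜 N => 𝕜) ⊤) ∈ closure (R : Set (lp (fun _ : Fun 𝕜 N => 𝕜) ⊤)) :=
      y.2
    obtain ⟨_, ⟨x, rfl⟩, hx⟩ := Metric.mem_closure_iff.1 hy ε hε
    exact ⟨J x, ⟨x, rfl⟩, hx⟩
  refine ⟨R.topologicalClosure, inferInstance, inferInstance, J, ?_, ?_, ?_⟩
  · infer_instance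
  · intro x
    rw [hJ]
    exact norm_J0_le hN x
  · intro Z _ _ _ T hT
    have hb : ∀ x, ‖T x‖ ≤ 1 * ‖J x‖ := by
      intro x
      obtain ⟨g, hg1, hg2⟩ := exists_dual_vector'' 𝕜 (T x)
      let φ : Fun 𝕜 N := ⟨(g : Z →ₗ[𝕜] 𝕜).comp T, fun y => by
        refine (g.le_opNorm (T y)).trans ?_
        calc ‖g‖ * ‖T y‖ ≤ 1 * ‖T y‖ := mul_le_mul_of_nonneg_right hg1 (norm_nonneg _)
          _ ≤ N y := by rw [one_mul]; exact hT y⟩
      have h1 : ‖(J0 (𝕜 := 𝕜) N x : ∀ _ : Fun 𝕜 N, 𝕜) φ‖ ≤ ‖J0 (𝕜 := 𝕜) N x‖ :=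
        lp.norm_apply_le_norm ENNReal.top_ne_zero (J0 (𝕜 := 𝕜) N x) φ
      rw [J0_apply] at h1
      have h2 : φ.1 x = ((‖T x‖ : ℝ) : 𝕜) := hg2
      rw [h2, RCLike.norm_ofReal, abs_of_nonneg (norm_nonneg _)] at h1
      rw [one_mul, hJ]
      exact h1
    refine ⟨T.extendOfNorm J, ⟨LinearMap.opNorm_extendOfNorm_le hdense zero_le_one hb,
      fun x => LinearMap.extendOfNorm_eq hdense ⟨1, hb⟩ x⟩, ?_⟩
    rintro T' ⟨-, hT'⟩
    refine (LinearMap.extendOfNorm_unique hdense 1 hb T' ?_).symm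
    exact LinearMap.ext hT'

end envelope

/-! ### Dyadic differences of Lipschitz functions -/

section dyadic

/-- the dyadic increments -/
noncomputable def inc (f : ℝ → 𝕜) (n k : ℕ) : 𝕜 := f ((k + 1 : ℝ) / 2 ^ n) - f ((k : ℝ) / 2 ^ n)

/-- the energy -/
noncomputable def En (f : ℝ → 𝕜) (n : ℕ) : ℝ := 2 ^ n * ∑ k ∈ range (2 ^ n), ‖inc f n k‖ ^ 2

theorem inc_split (f : ℝ → 𝕜) (n k : ℕ) :
    inc f n k = inc f (n + 1) (2 * k) + inc f (n + 1) (2 * k + 1) := by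
  unfold inc
  have h1 : ((k + 1 : ℝ)) / 2 ^ n = (((2 * k + 1 : ℕ) : ℝ) + 1) / 2 ^ (n + 1) := by
    push_cast
    rw [pow_succ]
    field_simp
    ring
  have h2 : ((k : ℝ)) / 2 ^ n = ((2 * k : ℕ) : ℝ) / 2 ^ (n + 1) := by
    push_cast
    rw [pow_succ]
    field_simp
  have h3 : ((2 * k : ℕ) : ℝ) + 1 = ((2 * k + 1 : ℕ) : ℝ) := by push_cast; ring
  rw [h1, h2, h3]
  ring

theorem sum_two_mul (g : ℕ → ℝ) (m : ℕ) :
    ∑ k ∈ range (2 * m), g k = ∑ k ∈ range m, (g (2 * k) + g (2 * k + 1)) := by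
  induction m with
  | zero => simp
  | succ m ih =>
    rw [show 2 * (m + 1) = 2 * m + 1 + 1 by ring, sum_range_succ, sum_range_succ, ih,
      sum_range_succ]
    ring

/-- the Rademacher sums -/
noncomputable def rad (f : ℝ → 𝕜) (n : ℕ) : 𝕜 :=
  ∑ k ∈ range (2 ^ n), (inc f (n + 1) (2 * k) - inc f (n + 1) (2 * k + 1))

theorem rad_le (f : ℝ → 𝕜) (n : ℕ) : ‖rad f n‖ ^ 2 ≤ En f (n + 1) - En f n := by
  have h1 : En f (n + 1) = En f n +
      2 ^ n * ∑ k ∈ range (2 ^ n), ‖inc f (n + 1) (2 * k) - inc f (n + 1) (2 * k + 1)‖ ^ 2 := by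
    unfold En
    have e : (2 : ℕ) ^ (n + 1) = 2 * 2 ^ n := by ring
    rw [e, sum_two_mul, ← mul_add, ← sum_add_distrib, pow_succ, mul_assoc, mul_sum]
    congr 1
    refine sum_congr rfl fun k _ => ?_
    have := parallelogram_law_with_norm 𝕜 (inc f (n + 1) (2 * k)) (inc f (n + 1) (2 * k + 1))
    rw [← inc_split] at this
    nlinarith
  have h2 : ‖rad f n‖ ≤ ∑ k ∈ range (2 ^ n),
      ‖inc f (n + 1) (2 * k) - inc f (n + 1) (2 * k + 1)‖ := norm_sum_le _ _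
  have h3 := sq_sum_le_card_mul_sum_sq (s := range (2 ^ n))
    (f := fun k => ‖inc f (n + 1) (2 * k) - inc f (n + 1) (2 * k + 1)‖)
  rw [card_range] at h3
  push_cast at h3
  have h4 := pow_le_pow_left₀ (norm_nonneg _) h2 2
  rw [h1]
  linarith

theorem En_le (f : ℝ → 𝕜) {L : ℝ} (hL : 0 ≤ L)
    (hf : ∀ s ∈ Set.Icc (0 : ℝ) 1, ∀ t ∈ Set.Icc (0 : ℝ) 1, ‖f s - f t‖ ≤ L * |s - t|) (n : ℕ) :
    En f n ≤ L ^ 2 := by
  unfold En
  have h1 : ∀ k ∈ range (2 ^ n), ‖inc f n k‖ ^ 2 ≤ (L / 2 ^ n) ^ 2 := by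
    intro k hk
    rw [mem_range] at hk
    have hk' : ((k : ℝ) + 1) ≤ 2 ^ n := by exact_mod_cast hk
    have hk0 : (0 : ℝ) ≤ k := Nat.cast_nonneg k
    have hp : (0 : ℝ) < 2 ^ n := by positivity
    have h2 := hf ((k + 1 : ℝ) / 2 ^ n) ⟨by positivity, by rw [div_le_one hp]; exact hk'⟩
      ((k : ℝ) / 2 ^ n) ⟨by positivity, by rw [div_le_one hp]; linarith⟩
    have h3 : ((k + 1 : ℝ) / 2 ^ n) - (k : ℝ) / 2 ^ n = 1 / 2 ^ n := by ring
    rw [h3, abs_of_pos (by positivity)] at h2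
    have h4 : ‖inc f n k‖ ≤ L / 2 ^ n := by
      unfold inc
      rw [div_eq_mul_one_div L]
      exact h2
    exact pow_le_pow_left₀ (norm_nonneg _) h4 2
  have h5 := sum_le_sum h1
  rw [sum_const, card_range, nsmul_eq_mul] at h5
  push_cast at h5
  have hp : (0 : ℝ) < 2 ^ n := by positivity
  calc 2 ^ n * ∑ k ∈ range (2 ^ n), ‖inc f n k‖ ^ 2 ≤ 2 ^ n * (2 ^ n * (L / 2 ^ n) ^ 2) :=
        mul_le_mul_of_nonneg_left h5 hp.le
    _ = L ^ 2 := by field_simp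

theorem rad_tendsto (f : ℝ → 𝕜) {L : ℝ} (hL : 0 ≤ L)
    (hf : ∀ s ∈ Set.Icc (0 : ℝ) 1, ∀ t ∈ Set.Icc (0 : ℝ) 1, ‖f s - f t‖ ≤ L * |s - t|) :
    Tendsto (rad f) atTop (𝓝 0) := by
  have hmono : Monotone (En f) := by
    refine monotone_nat_of_le_succ fun n => ?_
    have := rad_le f n
    have h2 := sq_nonneg ‖rad f n‖
    linarith
  have hconv := tendsto_atTop_ciSup hmono ⟨L ^ 2, by rintro _ ⟨n, rfl⟩; exact En_le f hL hf n⟩
  have h1 : Tendsto (fun n => En f (n + 1) - En f n) atTop (𝓝 0) := by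
    have := ((tendsto_add_atTop_iff_nat 1).2 hconv).sub hconv
    rwa [sub_self] at this
  have h2 : Tendsto (fun n => ‖rad f n‖ ^ 2) atTop (𝓝 0) :=
    squeeze_zero (fun n => sq_nonneg _) (rad_le f) h1
  have h3 : Tendsto (fun n => √(‖rad f n‖ ^ 2)) atTop (𝓝 √0) := h2.sqrt
  rw [Real.sqrt_zero] at h3
  rw [tendsto_zero_iff_norm_tendsto_zero]
  refine h3.congr fun n => ?_
  exact Real.sqrt_sq (norm_nonneg _)

end dyadic

/-! ### The free space over the interval -/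

section main

variable {p : ℝ} {F : Type} [AddCommGroup F] [Module 𝕜 F] {N : F → ℝ}

/-- the base point -/
def o : Set.Icc (0 : ℝ) 1 := ⟨0, by simp⟩

/-- the point of the interval -/
noncomputable def pt (t : ℝ) : Set.Icc (0 : ℝ) 1 := Set.projIcc 0 1 zero_le_one t

/-- the Rademacher elements -/
noncomputable def rr (δ : Set.Icc (0 : ℝ) 1 → F) (n : ℕ) : F :=
  ∑ k ∈ range (2 ^ n), ((δ (pt (((2 * k : ℕ) + 1 : ℝ) / 2 ^ (n + 1))) -
      δ (pt (((2 * k : ℕ) : ℝ) / 2 ^ (n + 1)))) -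
    (δ (pt (((2 * k + 1 : ℕ) + 1 : ℝ) / 2 ^ (n + 1))) -
      δ (pt (((2 * k + 1 : ℕ) : ℝ) / 2 ^ (n + 1)))))

theorem map_rr {Z : Type} [AddCommGroup Z] [Module 𝕜 Z] (δ : Set.Icc (0 : ℝ) 1 → F)
    (T : F →ₗ[𝕜] Z) (n : ℕ) : T (rr δ n) = rr (fun s => T (δ s)) n := by
  unfold rr
  rw [map_sum]
  refine sum_congr rfl fun k _ => ?_
  rw [map_sub, map_sub, map_sub]

/-- the triangular wave -/
noncomputable def wave (n : ℕ) (t : ℝ) : ℝ :=
  Metric.infDist t (Set.range fun j : ℤ => (2 * j : ℝ) / 2 ^ (n + 1))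

theorem wave_even (n : ℕ) (j : ℤ) : wave n ((2 * j : ℝ) / 2 ^ (n + 1)) = 0 :=
  Metric.infDist_zero_of_mem ⟨j, rfl⟩

theorem wave_odd (n : ℕ) (j : ℤ) : wave n ((2 * j + 1 : ℝ) / 2 ^ (n + 1)) = 1 / 2 ^ (n + 1) := by
  have hne : (Set.range fun j : ℤ => (2 * j : ℝ) / 2 ^ (n + 1)).Nonempty := ⟨_, ⟨0, rfl⟩⟩
  have hp : (0 : ℝ) < 2 ^ (n + 1) := by positivity
  apply le_antisymm
  · refine (Metric.infDist_le_dist_of_mem (Set.mem_range_self j)).trans ?_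
    rw [Real.dist_eq, ← sub_div, add_sub_cancel_left, abs_of_pos (by positivity)]
  · unfold wave
    rw [Metric.le_infDist hne]
    rintro _ ⟨i, rfl⟩
    rw [Real.dist_eq, ← sub_div, abs_div, abs_of_pos hp]
    gcongr
    have h1 : (2 * j + 1 : ℝ) - 2 * i = ((2 * j + 1 - 2 * i : ℤ) : ℝ) := by push_cast; ring
    rw [h1, ← Int.cast_abs]
    have h2 : (1 : ℤ) ≤ |2 * j + 1 - 2 * i| := Int.one_le_abs (by omega)
    exact_mod_cast h2

theorem wave_lip (n : ℕ) (s t : ℝ) : |wave n s - wave n t| ≤ |s - t| := by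
  have := (Metric.lipschitz_infDist_pt
    (Set.range fun j : ℤ => (2 * j : ℝ) / 2 ^ (n + 1))).dist_le_mul s t
  rwa [NNReal.coe_one, one_mul, Real.dist_eq, Real.dist_eq] at this

theorem pt_val {t : ℝ} (h0 : 0 ≤ t) (h1 : t ≤ 1) : (pt t : ℝ) = t := by
  rw [pt, Set.projIcc_of_mem zero_le_one ⟨h0, h1⟩]

theorem pt_nat {n k : ℕ} (hk : k ≤ 2 ^ n) : (pt ((k : ℝ) / 2 ^ n) : ℝ) = (k : ℝ) / 2 ^ n := by
  have hp : (0 : ℝ) < 2 ^ n := by positivity
  apply pt_val (by positivity)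
  rw [div_le_one hp]
  exact_mod_cast hk

/-- the norm of the Rademacher elements in the envelope is at least `1` -/
theorem one_le_norm (hp : 0 < p) (hp1 : p < 1) {δ : Set.Icc (0 : ℝ) 1 → F}
    (hF : IsFreePSpace 𝕜 p (Set.Icc (0 : ℝ) 1) o F N δ)
    {Y : Type} [NormedAddCommGroup Y] [NormedSpace 𝕜 Y] {J : F →ₗ[𝕜] Y}
    (hY : IsBanachEnvelope 𝕜 F N Y J) (n : ℕ) : 1 ≤ ‖J (rr δ n)‖ := by
  -- the scalar field is a `p`-Banach space
  have hK : IsPBanach 𝕜 p 𝕜 (fun x : 𝕜 => ‖x‖) :=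
    { nonneg := fun x => norm_nonneg x
      eq_zero_iff := fun x => norm_eq_zero
      smul := fun c x => by rw [smul_eq_mul, norm_mul]
      add_le := fun x y => by
        calc ‖x + y‖ ^ p ≤ (‖x‖ + ‖y‖) ^ p :=
              Real.rpow_le_rpow (norm_nonneg _) (norm_add_le _ _) hp.le
          _ ≤ ‖x‖ ^ p + ‖y‖ ^ p :=
              Real.rpow_add_le_add_rpow (norm_nonneg _) (norm_nonneg _) hp.le hp1.le
      complete := by
        intro s hs
        have hc : CauchySeq s := by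
          rw [Metric.cauchySeq_iff]
          intro ε hε
          obtain ⟨K, hK⟩ := hs ε hε
          exact ⟨K, fun m hm n hn => by rw [dist_eq_norm]; exact hK m hm n hn⟩
        obtain ⟨z, hz⟩ := cauchySeq_tendsto_of_complete hc
        exact ⟨z, by simpa using (tendsto_iff_norm_sub_tendsto_zero.1 hz)⟩ }
  obtain ⟨T, hT1, hT2, -⟩ := hF.universal 𝕜 (fun x => ‖x‖) hK
    (fun s => ((wave n s.1 : ℝ) : 𝕜)) 1 zero_le_one
    (by
      have h := wave_even n 0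
      simp only [Int.cast_zero, mul_zero, zero_div] at h
      change ((wave n 0 : ℝ) : 𝕜) = 0
      rw [h, RCLike.ofReal_zero])
    (by
      intro s t
      rw [← RCLike.ofReal_sub, RCLike.norm_ofReal, one_mul]
      exact wave_lip n s.1 t.1)
  obtain ⟨T', ⟨hT'1, hT'2⟩, -⟩ := hY.universal 𝕜 T (fun x => by
    have := hT2 x
    rwa [one_mul] at this)
  have hval : T (rr δ n) = 1 := by
    rw [map_rr]
    unfold rr
    have hterm : ∀ k ∈ range (2 ^ n),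
        ((T (δ (pt (((2 * k : ℕ) + 1 : ℝ) / 2 ^ (n + 1)))) -
          T (δ (pt (((2 * k : ℕ) : ℝ) / 2 ^ (n + 1))))) -
        (T (δ (pt (((2 * k + 1 : ℕ) + 1 : ℝ) / 2 ^ (n + 1)))) -
          T (δ (pt (((2 * k + 1 : ℕ) : ℝ) / 2 ^ (n + 1)))))) = ((1 / 2 ^ n : ℝ) : 𝕜) := by
      intro k hk
      rw [mem_range] at hk
      have e1 : ((2 * k : ℕ) + 1 : ℝ) = ((2 * k + 1 : ℕ) : ℝ) := by push_cast; ring
      have e2 : ((2 * k + 1 : ℕ) + 1 : ℝ) = ((2 * k + 2 : ℕ) : ℝ) := by push_cast; ring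
      have b : 2 * k + 2 ≤ 2 ^ (n + 1) := by rw [pow_succ]; omega
      rw [e1, e2, hT1, hT1, hT1, pt_nat (by omega), pt_nat (by omega), pt_nat (by omega)]
      have w1 : wave n (((2 * k + 1 : ℕ) : ℝ) / 2 ^ (n + 1)) = 1 / 2 ^ (n + 1) := by
        have := wave_odd n k
        push_cast at this ⊢
        exact this
      have w2 : wave n (((2 * k : ℕ) : ℝ) / 2 ^ (n + 1)) = 0 := by
        have := wave_even n k
        push_cast at this ⊢
        exact this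
      have w3 : wave n (((2 * k + 2 : ℕ) : ℝ) / 2 ^ (n + 1)) = 0 := by
        have := wave_even n (k + 1)
        push_cast at this ⊢
        rw [mul_add, mul_one] at this
        exact this
      rw [w1, w2, w3, ← RCLike.ofReal_sub, ← RCLike.ofReal_sub, ← RCLike.ofReal_sub]
      congr 1
      rw [pow_succ]
      field_simp
      ring
    rw [sum_congr rfl hterm, sum_const, card_range, nsmul_eq_mul]
    push_cast
    rw [mul_one_div_cancel]
    exact pow_ne_zero _ two_ne_zero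
  have h1 : T' (J (rr δ n)) = 1 := by rw [hT'2, hval]
  have h2 := T'.le_opNorm (J (rr δ n))
  rw [h1, norm_one] at h2
  calc (1 : ℝ) ≤ ‖T'‖ * ‖J (rr δ n)‖ := h2
    _ ≤ 1 * ‖J (rr δ n)‖ := mul_le_mul_of_nonneg_right hT'1 (norm_nonneg _)
    _ = ‖J (rr δ n)‖ := one_mul _

/-- the Rademacher elements are weakly null in the envelope -/
theorem weakly_null {δ : Set.Icc (0 : ℝ) 1 → F}
    (hF : IsFreePSpace 𝕜 p (Set.Icc (0 : ℝ) 1) o F N δ)
    {Y : Type} [NormedAddCommGroup Y] [NormedSpace 𝕜 Y] {J : F →ₗ[𝕜] Y}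
    (hY : IsBanachEnvelope 𝕜 F N Y J) (φ : Y →L[𝕜] 𝕜) :
    Tendsto (fun n => φ (J (rr δ n))) atTop (𝓝 0) := by
  have h := rad_tendsto (𝕜 := 𝕜) (fun t : ℝ => φ (J (δ (pt t)))) (L := ‖φ‖) (norm_nonneg _) (by
    intro s hs t ht
    rw [← map_sub, ← map_sub]
    refine (φ.le_opNorm _).trans (mul_le_mul_of_nonneg_left ?_ (norm_nonneg _))
    refine (hY.contraction _).trans (le_of_eq ?_)
    rw [hF.isometric]
    change |(pt s : ℝ) - (pt t : ℝ)| = _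
    rw [pt_val hs.1 hs.2, pt_val ht.1 ht.2])
  refine h.congr fun n => ?_
  have h2 := map_rr (𝕜 := 𝕜) δ (((φ : Y →ₗ[𝕜] 𝕜)).comp J) n
  have h3 : φ (J (rr δ n)) = rr (fun s => φ (J (δ s))) n := h2
  rw [h3]
  rfl

/-- **A Banach envelope without the Schur property.**  Let `0 < p < 1` and let the scalars be real
or complex.  There is a `p`-Banach space with the Schur `p`-property that has a Banach envelope, and
no Banach envelope of which has the Schur property. -/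
theorem result (𝕜 : Type) [RCLike 𝕜] (p : ℝ) (hp : 0 < p) (hp1 : p < 1) :
    ∃ (X : Type) (_ : AddCommGroup X) (_ : Module 𝕜 X) (N : X → ℝ),
      IsPBanach 𝕜 p X N ∧ SchurP 𝕜 p X N ∧
      (∃ (Y : Type) (_ : NormedAddCommGroup Y) (_ : NormedSpace 𝕜 Y) (J : X →ₗ[𝕜] Y),
        IsBanachEnvelope 𝕜 X N Y J) ∧
      ∀ (Y : Type) (_ : NormedAddCommGroup Y) (_ : NormedSpace 𝕜 Y) (J : X →ₗ[𝕜] Y),
        IsBanachEnvelope 𝕜 X N Y J → ¬ Schur 𝕜 Y := by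
  obtain ⟨F, i1, i2, N, δ, hF⟩ :=
    Pool.Agent.H262.FP.exists_free (𝕜 := 𝕜) hp hp1.le (o : Set.Icc (0 : ℝ) 1)
  refine ⟨F, i1, i2, N, hF.pbanach, Pool.Agent.H262.FP.schur hp hp1 hF,
    exists_envelope hF.pbanach.nonneg, ?_⟩
  intro Y _ _ J hY hS
  have h1 := hS (fun n => J (rr δ n)) (weakly_null hF hY)
  have h2 : Tendsto (fun n => ‖J (rr δ n)‖) atTop (𝓝 0) := tendsto_zero_iff_norm_tendsto_zero.1 h1
  have h3 := ge_of_tendsto' h2 (one_le_norm hp hp1 hF hY)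
  exact absurd h3 (by norm_num)

end main

end Pool.Agent.Results.MP_4b0054_an.EnvelopeNotSchur
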